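import Mathlib

/-!
Right alternative bimodules over the algebra of 2 by 2 matrices, modules over the free algebra in
three variables, and the bimodule `M(Y)` attached to such a module `Y`.
-/

namespace Pool.Agent.Y744.RA

universe u v w

/-- The associative algebra of 2 by 2 matrices over `F`. -/
abbrev Mat2 (F : Type u) : Type u := Matrix (Fin 2) (Fin 2) F

/-- A bimodule over the algebra of 2 by 2 matrices over `F`: a vector space with a bilinear left
action and a bilinear right action (`right m a` is `m a`), no further axiom. -/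
structure Bimodule (F : Type u) [Field F] where
  carrier : Type v
  [grp : AddCommGroup carrier]
  [mod : Module F carrier]
  left : Mat2 F →ₗ[F] carrier →ₗ[F] carrier
  right : carrier →ₗ[F] Mat2 F →ₗ[F] carrier

attribute [instance] Bimodule.grp Bimodule.mod

namespace Bimodule

variable {F : Type u} [Field F]

/-- Multiplication of the split null extension, whose underlying space is `Mat2 F × M`. -/
def nullMul (M : Bimodule.{u, v} F) (x y : Mat2 F × M.carrier) : Mat2 F × M.carrier :=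
  (x.1 * y.1, M.left x.1 y.2 + M.right x.2 y.1)

/-- The bimodule is right alternative: its split null extension satisfies `(xy)y = x(yy)`. -/
def IsRightAlternative (M : Bimodule.{u, v} F) : Prop :=
  ∀ x y : Mat2 F × M.carrier, M.nullMul (M.nullMul x y) y = M.nullMul x (M.nullMul y y)

/-- The unit matrix acts as the identity from both sides. -/
def IsUnital (M : Bimodule.{u, v} F) : Prop :=
  ∀ m : M.carrier, M.left 1 m = m ∧ M.right m 1 = m

/-- A subspace stable under both actions. -/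
def IsSubBimodule (M : Bimodule.{u, v} F) (N : Submodule F M.carrier) : Prop :=
  ∀ (a : Mat2 F), ∀ m ∈ N, M.left a m ∈ N ∧ M.right m a ∈ N

/-- The bimodule is nonzero and its only sub-bimodules are zero and itself. -/
def IsIrreducible (M : Bimodule.{u, v} F) : Prop :=
  Nontrivial M.carrier ∧ ∀ N : Submodule F M.carrier, M.IsSubBimodule N → N = ⊥ ∨ N = ⊤

/-- Isomorphism of bimodules: a linear bijection commuting with both actions. -/
def Iso (M : Bimodule.{u, v} F) (M' : Bimodule.{u, w} F) : Prop :=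
  ∃ φ : M.carrier ≃ₗ[F] M'.carrier,
    (∀ (a : Mat2 F) (m : M.carrier), φ (M.left a m) = M'.left a (φ m)) ∧
    (∀ (m : M.carrier) (a : Mat2 F), φ (M.right m a) = M'.right (φ m) a)

end Bimodule

/-- A module over the free associative algebra `F⟨x, s, z⟩` in three variables: a vector space
with three arbitrary endomorphisms, the actions of `x`, `s` and `z`. -/
structure FreeMod (F : Type u) [Field F] where
  carrier : Type v
  [grp : AddCommGroup carrier]
  [mod : Module F carrier]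
  x : carrier →ₗ[F] carrier
  s : carrier →ₗ[F] carrier
  z : carrier →ₗ[F] carrier

attribute [instance] FreeMod.grp FreeMod.mod

namespace FreeMod

variable {F : Type u} [Field F]

/-- A submodule over the free algebra. -/
def IsSubmodule (Y : FreeMod.{u, v} F) (N : Submodule F Y.carrier) : Prop :=
  ∀ y ∈ N, Y.x y ∈ N ∧ Y.s y ∈ N ∧ Y.z y ∈ N

/-- Irreducibility (simplicity) over the free algebra. -/
def IsIrreducible (Y : FreeMod.{u, v} F) : Prop :=
  Nontrivial Y.carrier ∧ ∀ N : Submodule F Y.carrier, Y.IsSubmodule N → N = ⊥ ∨ N = ⊤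

/-- Isomorphism over the free algebra. -/
def Iso (Y : FreeMod.{u, v} F) (Y' : FreeMod.{u, w} F) : Prop :=
  ∃ φ : Y.carrier ≃ₗ[F] Y'.carrier,
    ∀ y, φ (Y.x y) = Y'.x (φ y) ∧ φ (Y.s y) = Y'.s (φ y) ∧ φ (Y.z y) = Y'.z (φ y)

/-- The exceptional two-dimensional module: with basis `e₁, e₂`,
`x e₁ = 0`, `x e₂ = - e₁`, `s e₁ = e₁`, `s e₂ = - e₂`, `z e₁ = e₂`, `z e₂ = 0`. -/
def exc (F : Type u) [Field F] : FreeMod.{u, u} F where
  carrier := Fin 2 → F
  x := Matrix.toLin' !![0, -1; 0, 0]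
  s := Matrix.toLin' !![1, 0; 0, -1]
  z := Matrix.toLin' !![0, 0; 1, 0]

end FreeMod

section Construction

variable {F : Type u} [Field F]

/-- The symmetric matrix `Φ(a)` of operators on `Y`:
`Φ(a)₀₀ = (a₀₀ - a₁₁) x + a₀₁ s`, `Φ(a)₀₁ = Φ(a)₁₀ = a₁₀ x + a₀₁ z`,
`Φ(a)₁₁ = a₁₀ s + (a₁₁ - a₀₀) z`. -/
def phi (Y : FreeMod.{u, v} F) (a : Mat2 F) (i j : Fin 2) : Y.carrier →ₗ[F] Y.carrier :=
  if i = j then
    if i = 0 then (a 0 0 - a 1 1) • Y.x + a 0 1 • Y.s else a 1 0 • Y.s + (a 1 1 - a 0 0) • Y.z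
  else a 1 0 • Y.x + a 0 1 • Y.z

/-- The left action of `a` on a 2 by 2 matrix `m` with entries in `Y`: `m` times the transpose of
`a`, plus `Φ(a)` applied to `m₀₁ - m₁₀`. -/
def lfun (Y : FreeMod.{u, v} F) (a : Mat2 F) (m : Matrix (Fin 2) (Fin 2) Y.carrier) :
    Matrix (Fin 2) (Fin 2) Y.carrier :=
  fun i j => a j 0 • m i 0 + a j 1 • m i 1 + phi Y a i j (m 0 1 - m 1 0)

/-- The right action of `a` on a 2 by 2 matrix `m` with entries in `Y`: `a` times `m`. -/
def rfun (Y : FreeMod.{u, v} F) (m : Matrix (Fin 2) (Fin 2) Y.carrier) (a : Mat2 F) :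
    Matrix (Fin 2) (Fin 2) Y.carrier :=
  fun i j => a i 0 • m 0 j + a i 1 • m 1 j

section
variable (Y : FreeMod.{u, v} F)

lemma lfun_eq (a : Mat2 F) (m : Matrix (Fin 2) (Fin 2) Y.carrier) :
    lfun Y a m =
  !![a 0 0 • m 0 0 + a 0 1 • m 0 1 +
        ((a 0 0 - a 1 1) • Y.x (m 0 1 - m 1 0) + a 0 1 • Y.s (m 0 1 - m 1 0)),
     a 1 0 • m 0 0 + a 1 1 • m 0 1 +
        (a 1 0 • Y.x (m 0 1 - m 1 0) + a 0 1 • Y.z (m 0 1 - m 1 0));
     a 0 0 • m 1 0 + a 0 1 • m 1 1 +
        (a 1 0 • Y.x (m 0 1 - m 1 0) + a 0 1 • Y.z (m 0 1 - m 1 0)),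
     a 1 0 • m 1 0 + a 1 1 • m 1 1 +
        (a 1 0 • Y.s (m 0 1 - m 1 0) + (a 1 1 - a 0 0) • Y.z (m 0 1 - m 1 0))] := by
  ext i j
  fin_cases i <;> fin_cases j <;> rfl

lemma rfun_eq (a : Mat2 F) (m : Matrix (Fin 2) (Fin 2) Y.carrier) :
    rfun Y m a =
  !![a 0 0 • m 0 0 + a 0 1 • m 1 0, a 0 0 • m 0 1 + a 0 1 • m 1 1;
     a 1 0 • m 0 0 + a 1 1 • m 1 0, a 1 0 • m 0 1 + a 1 1 • m 1 1] := by
  ext i j
  fin_cases i <;> fin_cases j <;> rfl

lemma lfun_add_left (a b : Mat2 F) (m : Matrix (Fin 2) (Fin 2) Y.carrier) :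
    lfun Y (a + b) m = lfun Y a m + lfun Y b m := by
  ext i j; fin_cases i <;> fin_cases j <;> simp [lfun_eq] <;> module

lemma lfun_smul_left (r : F) (a : Mat2 F) (m : Matrix (Fin 2) (Fin 2) Y.carrier) :
    lfun Y (r • a) m = r • lfun Y a m := by
  ext i j; fin_cases i <;> fin_cases j <;> simp [lfun_eq] <;> module

lemma lfun_add_right (a : Mat2 F) (m m' : Matrix (Fin 2) (Fin 2) Y.carrier) :
    lfun Y a (m + m') = lfun Y a m + lfun Y a m' := by
  ext i j; fin_cases i <;> fin_cases j <;> simp [lfun_eq] <;> module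

lemma lfun_smul_right (r : F) (a : Mat2 F) (m : Matrix (Fin 2) (Fin 2) Y.carrier) :
    lfun Y a (r • m) = r • lfun Y a m := by
  ext i j; fin_cases i <;> fin_cases j <;> simp [lfun_eq] <;> module

lemma rfun_add_left (m m' : Matrix (Fin 2) (Fin 2) Y.carrier) (a : Mat2 F) :
    rfun Y (m + m') a = rfun Y m a + rfun Y m' a := by
  ext i j; fin_cases i <;> fin_cases j <;> simp [rfun_eq] <;> module

lemma rfun_smul_left (r : F) (m : Matrix (Fin 2) (Fin 2) Y.carrier) (a : Mat2 F) :
    rfun Y (r • m) a = r • rfun Y m a := by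
  ext i j; fin_cases i <;> fin_cases j <;> simp [rfun_eq] <;> module

lemma rfun_add_right (m : Matrix (Fin 2) (Fin 2) Y.carrier) (a b : Mat2 F) :
    rfun Y m (a + b) = rfun Y m a + rfun Y m b := by
  ext i j; fin_cases i <;> fin_cases j <;> simp [rfun_eq] <;> module

lemma rfun_smul_right (r : F) (m : Matrix (Fin 2) (Fin 2) Y.carrier) (a : Mat2 F) :
    rfun Y m (r • a) = r • rfun Y m a := by
  ext i j; fin_cases i <;> fin_cases j <;> simp [rfun_eq] <;> module

end

/-- The bimodule `M(Y)` of the 2 by 2 matrices with entries in the module `Y` over the free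
algebra. -/
def bim (Y : FreeMod.{u, v} F) : Bimodule.{u, v} F where
  carrier := Matrix (Fin 2) (Fin 2) Y.carrier
  left := LinearMap.mk₂ F (lfun Y) (lfun_add_left Y) (lfun_smul_left Y) (lfun_add_right Y)
    (lfun_smul_right Y)
  right := LinearMap.mk₂ F (rfun Y) (rfun_add_left Y) (rfun_smul_left Y) (rfun_add_right Y)
    (rfun_smul_right Y)

end Construction

end Pool.Agent.Y744.RA
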