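import Pool.Agent.Y744.RA.Defs

/-!
The bimodules `M(Y)`: right alternativity, irreducibility, isomorphism.
-/

namespace Pool.Agent.Y744.RA

universe u v w

variable {F : Type u} [Field F]

section basic

variable (Y : FreeMod.{u, v} F)

lemma bim_left (a : Mat2 F) (m : Matrix (Fin 2) (Fin 2) Y.carrier) :
    (bim Y).left a m = lfun Y a m := rfl

lemma bim_right (a : Mat2 F) (m : Matrix (Fin 2) (Fin 2) Y.carrier) :
    (bim Y).right m a = rfun Y m a := rfl

lemma key_right (m : Matrix (Fin 2) (Fin 2) Y.carrier) (b : Mat2 F) :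
    rfun Y (rfun Y m b) b = rfun Y m (b * b) := by
  ext i j
  fin_cases i <;> fin_cases j <;>
    simp [rfun_eq, Matrix.mul_apply, Fin.sum_univ_two] <;> module

lemma key_left (a b : Mat2 F) (m : Matrix (Fin 2) (Fin 2) Y.carrier) :
    lfun Y (a * b) m + rfun Y (lfun Y a m) b = lfun Y a (lfun Y b m + rfun Y m b) := by
  ext i j
  fin_cases i <;> fin_cases j <;>
    simp [lfun_eq, rfun_eq, Matrix.mul_apply, Fin.sum_univ_two] <;> module

lemma bim_rightAlt : (bim Y).IsRightAlternative := by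
  rintro ⟨a, m⟩ ⟨b, n⟩
  change (a * b * b, (bim Y).left (a * b) n + (bim Y).right ((bim Y).left a n + (bim Y).right m b) b) =
    (a * (b * b), (bim Y).left a ((bim Y).left b n + (bim Y).right n b) + (bim Y).right m (b * b))
  have h1 : (bim Y).right ((bim Y).left a n + (bim Y).right m b) b =
      (bim Y).right ((bim Y).left a n) b + (bim Y).right ((bim Y).right m b) b := by
    rw [map_add]; rfl
  have h2 : (bim Y).right ((bim Y).right m b) b = (bim Y).right m (b * b) := key_right Y m b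
  have h3 : (bim Y).left (a * b) n + (bim Y).right ((bim Y).left a n) b =
      (bim Y).left a ((bim Y).left b n + (bim Y).right n b) := key_left Y a b n
  rw [h1, h2, Matrix.mul_assoc, ← h3, add_assoc]

lemma lfun_one (m : Matrix (Fin 2) (Fin 2) Y.carrier) : lfun Y 1 m = m := by
  ext i j
  fin_cases i <;> fin_cases j <;> simp [lfun_eq]

lemma rfun_one (m : Matrix (Fin 2) (Fin 2) Y.carrier) : rfun Y m 1 = m := by
  ext i j
  fin_cases i <;> fin_cases j <;> simp [rfun_eq]

lemma bim_unital : (bim Y).IsUnital := fun m => ⟨lfun_one Y m, rfun_one Y m⟩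

end basic

section irr

variable {Y : FreeMod.{u, v} F}

/-- the matrix with first row `(p, q)` and second row zero -/
def row (p q : Y.carrier) : Matrix (Fin 2) (Fin 2) Y.carrier := !![p, q; 0, 0]

lemma row_add (p q p' q' : Y.carrier) : row p q + row p' q' = row (p + p') (q + q') := by
  ext i j
  fin_cases i <;> fin_cases j <;> simp [row]

lemma row_neg (p q : Y.carrier) : - row p q = row (-p) (-q) := by
  ext i j
  fin_cases i <;> fin_cases j <;> simp [row]

lemma row_smul (c : F) (p q : Y.carrier) : c • row p q = row (c • p) (c • q) := by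
  ext i j
  fin_cases i <;> fin_cases j <;> simp [row]

variable (N : Submodule F (Matrix (Fin 2) (Fin 2) Y.carrier))
  (hl : ∀ (a : Mat2 F), ∀ m ∈ N, lfun Y a m ∈ N) (hr : ∀ (a : Mat2 F), ∀ m ∈ N, rfun Y m a ∈ N)

include hr in
/-- the rows of an element of a sub-bimodule -/
lemma row_mem {m : Matrix (Fin 2) (Fin 2) Y.carrier} (hm : m ∈ N) :
    row (m 0 0) (m 0 1) ∈ N ∧ row (m 1 0) (m 1 1) ∈ N := by
  constructor
  · have := hr !![1, 0; 0, 0] m hm
    convert this using 1
    ext i j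
    fin_cases i <;> fin_cases j <;> simp [rfun_eq, row]
  · have := hr !![0, 1; 0, 0] m hm
    convert this using 1
    ext i j
    fin_cases i <;> fin_cases j <;> simp [rfun_eq, row]

include hr in
/-- the second copy of a row -/
lemma row_low {p q : Y.carrier} (h : row p q ∈ N) : (!![0, 0; p, q] : Matrix (Fin 2) (Fin 2) Y.carrier) ∈ N := by
  have := hr !![0, 0; 1, 0] _ h
  convert this using 1
  ext i j
  fin_cases i <;> fin_cases j <;> simp [rfun_eq, row]

include hl hr in
/-- all consequences of the stability under the left action -/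
lemma row_rules {p q : Y.carrier} (h : row p q ∈ N) :
    (row (p + Y.x q) 0 ∈ N ∧ row 0 (Y.z q) ∈ N) ∧
    (row (q + Y.s q) (Y.z q) ∈ N ∧ row (Y.z q) 0 ∈ N) ∧
    (row 0 (p + Y.x q) ∈ N ∧ row (Y.x q) (Y.s q) ∈ N) ∧
    (row (Y.x p) 0 ∈ N ∧ row p (Y.z p) ∈ N) ∧
    (row (Y.s p) (Y.z p) ∈ N ∧ row (q - Y.z p) 0 ∈ N) ∧
    (row 0 (Y.x p) ∈ N ∧ row 0 (p - Y.s p) ∈ N) ∧ row 0 (q - Y.z p) ∈ N := by
  have h' := row_low N hr h
  -- first copy
  have a00 := row_mem N hr (hl !![1, 0; 0, 0] _ h)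
  have a01 := row_mem N hr (hl !![0, 1; 0, 0] _ h)
  have a10 := row_mem N hr (hl !![0, 0; 1, 0] _ h)
  -- second copy
  have b00 := row_mem N hr (hl !![1, 0; 0, 0] _ h')
  have b01 := row_mem N hr (hl !![0, 1; 0, 0] _ h')
  have b10 := row_mem N hr (hl !![0, 0; 1, 0] _ h')
  have b11 := row_mem N hr (hl !![0, 0; 0, 1] _ h')
  simp only [lfun_eq, row, Matrix.of_apply, Matrix.cons_val', Matrix.cons_val_zero, Matrix.cons_val_one,
    Matrix.cons_val_fin_one, one_smul, zero_smul, add_zero, zero_add, sub_zero, zero_sub, map_neg,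
    smul_zero, neg_smul, sub_self, neg_neg] at a00 a01 a10 b00 b01 b10 b11
  have c00 : row (Y.x p) 0 ∈ N := by
    have := N.neg_mem b00.1
    convert this using 1
    ext i j
    fin_cases i <;> fin_cases j <;> simp [row]
  have c10 : row 0 (Y.x p) ∈ N := by
    have := N.neg_mem b10.1
    convert this using 1
    ext i j
    fin_cases i <;> fin_cases j <;> simp [row]
  refine ⟨⟨a00.1, ?_⟩, ⟨a01.1, a01.2⟩, ⟨a10.1, a10.2⟩, ⟨c00, ?_⟩, ⟨?_, ?_⟩, ⟨c10, ?_⟩, ?_⟩
  · have := N.neg_mem a00.2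
    convert this using 1
    ext i j
    fin_cases i <;> fin_cases j <;> simp [row]
  · exact b00.2
  · have := N.neg_mem b01.1
    convert this using 1
    ext i j
    fin_cases i <;> fin_cases j <;> simp [row]
  · have := b01.2
    convert this using 1
    ext i j
    fin_cases i <;> fin_cases j <;> simp [row, sub_eq_add_neg]
  · have := N.add_mem b10.2 c00
    convert this using 1
    ext i j
    fin_cases i <;> fin_cases j <;> simp [row, sub_eq_add_neg]
  · have := b11.2
    convert this using 1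
    ext i j
    fin_cases i <;> fin_cases j <;> simp [row, sub_eq_add_neg]

/-- The exceptional pairs: they span a copy of the exceptional module. -/
def ExcPair (Y : FreeMod.{u, v} F) (p q : Y.carrier) : Prop :=
  Y.x p = 0 ∧ Y.x q = -p ∧ Y.s p = p ∧ Y.s q = -q ∧ Y.z p = q ∧ Y.z q = 0

include hl hr in
/-- Dichotomy for sub-bimodules of `M(Y)`. -/
lemma sub_dichotomy (hY : Y.IsIrreducible) :
    (∀ p q : Y.carrier, row p q ∈ N) ∨ ∀ p q : Y.carrier, row p q ∈ N → ExcPair Y p q := by
  let Y' : Submodule F Y.carrier :=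
    { carrier := {y | row y 0 ∈ N ∧ row 0 y ∈ N}
      add_mem' := by
        rintro a b ⟨h1, h2⟩ ⟨h3, h4⟩
        refine ⟨?_, ?_⟩
        · have := N.add_mem h1 h3
          rwa [row_add, add_zero] at this
        · have := N.add_mem h2 h4
          rwa [row_add, add_zero] at this
      zero_mem' := by
        have : (row 0 0 : Matrix (Fin 2) (Fin 2) Y.carrier) = 0 := by
          ext i j
          fin_cases i <;> fin_cases j <;> simp [row]
        exact ⟨by rw [this]; exact N.zero_mem, by rw [this]; exact N.zero_mem⟩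
      smul_mem' := by
        rintro c a ⟨h1, h2⟩
        refine ⟨?_, ?_⟩
        · have := N.smul_mem c h1
          rwa [row_smul, smul_zero] at this
        · have := N.smul_mem c h2
          rwa [row_smul, smul_zero] at this }
  have hmem : ∀ y, y ∈ Y' ↔ row y 0 ∈ N ∧ row 0 y ∈ N := fun y => Iff.rfl
  have hst : Y.IsSubmodule Y' := by
    intro y hy
    rw [hmem] at hy
    obtain ⟨hy1, hy2⟩ := hy
    obtain ⟨-, -, -, ⟨e1, e2⟩, ⟨e3, -⟩, ⟨e5, -⟩, -⟩ := row_rules N hl hr hy1
    obtain ⟨-, ⟨-, g2⟩, -, -, -, -, -⟩ := row_rules N hl hr hy2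
    obtain ⟨-, -, ⟨-, k2⟩, -, -, -, -⟩ := row_rules N hl hr hy2
    have z2 : row 0 (Y.z y) ∈ N := by
      have := N.sub_mem e2 hy1
      rw [sub_eq_add_neg, row_neg, row_add] at this
      simpa using this
    have s1 : row (Y.s y) 0 ∈ N := by
      have := N.sub_mem e3 z2
      rw [sub_eq_add_neg, row_neg, row_add] at this
      simpa using this
    have s2 : row 0 (Y.s y) ∈ N := by
      have := N.sub_mem k2 e1
      rw [sub_eq_add_neg, row_neg, row_add] at this
      simpa using this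
    exact ⟨(hmem _).2 ⟨e1, e5⟩, (hmem _).2 ⟨s1, s2⟩, (hmem _).2 ⟨g2, z2⟩⟩
  rcases hY.2 Y' hst with h | h
  · right
    intro p q hpq
    have hzero : ∀ y, row y 0 ∈ N → row 0 y ∈ N → y = 0 := by
      intro y h1 h2
      have : y ∈ Y' := ⟨h1, h2⟩
      rw [h] at this
      exact (Submodule.mem_bot F).1 this
    obtain ⟨⟨r1, r2⟩, ⟨r3, r4⟩, ⟨r5, r6⟩, ⟨r7, -⟩, ⟨r9, r10⟩, ⟨r11, r12⟩, r13⟩ := row_rules N hl hr hpq
    have h1 : p + Y.x q = 0 := hzero _ r1 r5
    have h2 : q - Y.z p = 0 := hzero _ r10 r13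
    have h3 : Y.x p = 0 := hzero _ r7 r11
    have h4 : Y.z q = 0 := hzero _ r4 r2
    have hxq : Y.x q = -p := (neg_eq_of_add_eq_zero_right h1).symm
    have hzp : Y.z p = q := (sub_eq_zero.1 h2).symm
    have h5 : q + Y.s q = 0 := by
      apply hzero
      · rw [h4] at r3; exact r3
      · have := N.add_mem r6 hpq
        rw [row_add, hxq] at this
        simpa [add_comm] using this
    have h6 : p - Y.s p = 0 := by
      apply hzero
      · have := N.sub_mem hpq r9
        rw [sub_eq_add_neg, row_neg, row_add, hzp] at this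
        simpa [sub_eq_add_neg] using this
      · exact r12
    exact ⟨h3, hxq, (sub_eq_zero.1 h6).symm, (neg_eq_of_add_eq_zero_right h5).symm, hzp, h4⟩
  · left
    intro p q
    have hp : p ∈ Y' := by rw [h]; trivial
    have hq : q ∈ Y' := by rw [h]; trivial
    have := N.add_mem hp.1 hq.2
    rwa [row_add, add_zero, zero_add] at this

end irr

section irr2

variable {Y : FreeMod.{u, v} F}

lemma mem_of_rows (N : Submodule F (Matrix (Fin 2) (Fin 2) Y.carrier))
    (hr : ∀ (a : Mat2 F), ∀ m ∈ N, rfun Y m a ∈ N) (m : Matrix (Fin 2) (Fin 2) Y.carrier)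
    (h0 : row (m 0 0) (m 0 1) ∈ N) (h1 : row (m 1 0) (m 1 1) ∈ N) : m ∈ N := by
  have := N.add_mem h0 (row_low N hr h1)
  convert this using 1
  ext i j
  fin_cases i <;> fin_cases j <;> simp [row]

/-- An irreducible `Y` containing an exceptional pair is isomorphic to the exceptional module. -/
lemma iso_exc_of_pair (hY : Y.IsIrreducible) {p q : Y.carrier} (h : ExcPair Y p q) (hp : p ≠ 0) :
    Y.Iso (FreeMod.exc F) := by
  obtain ⟨h1, h2, h3, h4, h5, h6⟩ := h
  have hli : LinearIndependent F ![p, q] := by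
    rw [LinearIndependent.pair_iff]
    intro a b hab
    have e1 := congrArg Y.x hab
    simp only [map_add, map_smul, h1, h2, smul_zero, zero_add, map_zero, smul_neg, neg_eq_zero,
      smul_eq_zero, hp, or_false] at e1
    subst e1
    simp only [zero_smul, add_zero, smul_eq_zero, hp, or_false] at hab
    exact ⟨hab, rfl⟩
  have hst : Y.IsSubmodule (Submodule.span F (Set.range ![p, q])) := by
    intro y hy
    have hpm : p ∈ Submodule.span F (Set.range ![p, q]) := Submodule.subset_span ⟨0, rfl⟩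
    have hqm : q ∈ Submodule.span F (Set.range ![p, q]) := Submodule.subset_span ⟨1, rfl⟩
    induction hy using Submodule.span_induction with
    | mem y hy =>
      obtain ⟨i, rfl⟩ := hy
      fin_cases i
      · simp only [Fin.zero_eta, Matrix.cons_val_zero]
        rw [h1, h3, h5]
        exact ⟨Submodule.zero_mem _, hpm, hqm⟩
      · simp only [Fin.mk_one, Matrix.cons_val_one, Matrix.cons_val_fin_one]
        rw [h2, h4, h6]
        exact ⟨Submodule.neg_mem _ hpm, Submodule.neg_mem _ hqm, Submodule.zero_mem _⟩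
    | zero => simp
    | add a b _ _ ha hb =>
      simp only [map_add]
      exact ⟨Submodule.add_mem _ ha.1 hb.1, Submodule.add_mem _ ha.2.1 hb.2.1,
        Submodule.add_mem _ ha.2.2 hb.2.2⟩
    | smul c a _ ha =>
      simp only [map_smul]
      exact ⟨Submodule.smul_mem _ _ ha.1, Submodule.smul_mem _ _ ha.2.1,
        Submodule.smul_mem _ _ ha.2.2⟩
  have htop : Submodule.span F (Set.range ![p, q]) = ⊤ := by
    rcases hY.2 _ hst with h | h
    · exfalso
      apply hp
      have : p ∈ Submodule.span F (Set.range ![p, q]) := Submodule.subset_span ⟨0, rfl⟩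
      rw [h] at this
      exact (Submodule.mem_bot F).1 this
    · exact h
  let b : Module.Basis (Fin 2) F Y.carrier := Module.Basis.mk hli (by rw [htop])
  have hb0 : b 0 = p := by simp [b]
  have hb1 : b 1 = q := by simp [b]
  have hfp : b.equivFun p = ![1, 0] := by
    rw [← hb0]
    ext i
    fin_cases i <;> simp [Module.Basis.equivFun_self]
  have hfq : b.equivFun q = ![0, 1] := by
    rw [← hb1]
    ext i
    fin_cases i <;> simp [Module.Basis.equivFun_self]
  have key : ∀ c d : F,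
      b.equivFun (Y.x (c • p + d • q)) =
        Matrix.toLin' !![0, -1; 0, 0] (b.equivFun (c • p + d • q)) ∧
      b.equivFun (Y.s (c • p + d • q)) =
        Matrix.toLin' !![1, 0; 0, -1] (b.equivFun (c • p + d • q)) ∧
      b.equivFun (Y.z (c • p + d • q)) =
        Matrix.toLin' !![0, 0; 1, 0] (b.equivFun (c • p + d • q)) := by
    intro c d
    simp only [map_add, map_smul, h1, h2, h3, h4, h5, h6, map_neg, map_zero, hfp, hfq]
    refine ⟨?_, ?_, ?_⟩
    all_goals
      ext i
      fin_cases i <;> simp [Matrix.toLin'_apply]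
  refine ⟨b.equivFun, ?_⟩
  intro y
  have hy : y = (b.repr y 0) • p + (b.repr y 1) • q := by
    have := b.sum_repr y
    rw [Fin.sum_univ_two, hb0, hb1] at this
    exact this.symm
  rw [hy]
  exact key _ _

lemma sub_aux (hY : Y.IsIrreducible) (hexc : ¬ Y.Iso (FreeMod.exc F))
    (N : Submodule F (Matrix (Fin 2) (Fin 2) Y.carrier))
    (hl : ∀ (a : Mat2 F), ∀ m ∈ N, lfun Y a m ∈ N) (hr : ∀ (a : Mat2 F), ∀ m ∈ N, rfun Y m a ∈ N) :
    N = ⊥ ∨ N = ⊤ := by
  rcases sub_dichotomy N hl hr hY with h | h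
  · right
    rw [eq_top_iff]
    intro m _
    exact mem_of_rows N hr m (h _ _) (h _ _)
  · left
    rw [eq_bot_iff]
    intro m hm
    have key : ∀ p q : Y.carrier, row p q ∈ N → p = 0 ∧ q = 0 := by
      intro p q hpq
      have hE := h p q hpq
      by_cases hp : p = 0
      · refine ⟨hp, ?_⟩
        have := hE.2.2.2.2.1
        rw [← this, hp, map_zero]
      · exact absurd (iso_exc_of_pair hY hE hp) hexc
    obtain ⟨h0, h1⟩ := row_mem N hr hm
    rw [Submodule.mem_bot]
    ext i j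
    have k0 := key _ _ h0
    have k1 := key _ _ h1
    fin_cases i <;> fin_cases j
    · exact k0.1
    · exact k0.2
    · exact k1.1
    · exact k1.2

/-- **Irreducibility.** -/
lemma bim_irreducible (hY : Y.IsIrreducible) (hexc : ¬ Y.Iso (FreeMod.exc F)) :
    (bim Y).IsIrreducible := by
  have hnt := hY.1
  refine ⟨inferInstanceAs (Nontrivial (Matrix (Fin 2) (Fin 2) Y.carrier)), ?_⟩
  intro N hN
  exact sub_aux hY hexc N (fun a m hm => (hN a m hm).1) (fun a m hm => (hN a m hm).2)

/-- A submodule of `Y` gives a sub-bimodule of `M(Y)`. -/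
def subBim (Y : FreeMod.{u, v} F) (L : Submodule F Y.carrier) :
    Submodule F (Matrix (Fin 2) (Fin 2) Y.carrier) where
  carrier := {m | ∀ i j, m i j ∈ L}
  add_mem' := fun h1 h2 i j => L.add_mem (h1 i j) (h2 i j)
  zero_mem' := fun _ _ => L.zero_mem
  smul_mem' := fun c _ h i j => L.smul_mem c (h i j)

lemma subBim_isSub {L : Submodule F Y.carrier} (hL : Y.IsSubmodule L) :
    (bim Y).IsSubBimodule (subBim Y L) := by
  intro a m hm
  replace hm : ∀ i j, m i j ∈ L := hm
  have hd : m 0 1 - m 1 0 ∈ L := L.sub_mem (hm 0 1) (hm 1 0)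
  obtain ⟨hx, hs, hz⟩ := hL _ hd
  constructor
  · intro i j
    fin_cases i <;> fin_cases j
    · exact L.add_mem (L.add_mem (L.smul_mem _ (hm _ _)) (L.smul_mem _ (hm _ _)))
        (L.add_mem (L.smul_mem _ hx) (L.smul_mem _ hs))
    · exact L.add_mem (L.add_mem (L.smul_mem _ (hm _ _)) (L.smul_mem _ (hm _ _)))
        (L.add_mem (L.smul_mem _ hx) (L.smul_mem _ hz))
    · exact L.add_mem (L.add_mem (L.smul_mem _ (hm _ _)) (L.smul_mem _ (hm _ _)))
        (L.add_mem (L.smul_mem _ hx) (L.smul_mem _ hz))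
    · exact L.add_mem (L.add_mem (L.smul_mem _ (hm _ _)) (L.smul_mem _ (hm _ _)))
        (L.add_mem (L.smul_mem _ hs) (L.smul_mem _ hz))
  · intro i j
    fin_cases i <;> fin_cases j <;>
      exact L.add_mem (L.smul_mem _ (hm _ _)) (L.smul_mem _ (hm _ _))

lemma irreducible_of_bim (h : (bim Y).IsIrreducible) : Y.IsIrreducible := by
  obtain ⟨hnt, hsub⟩ := h
  have hY : Nontrivial Y.carrier := by
    by_contra hc
    rw [not_nontrivial_iff_subsingleton] at hc
    apply not_subsingleton (bim Y).carrier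
    exact inferInstanceAs (Subsingleton (Matrix (Fin 2) (Fin 2) Y.carrier))
  refine ⟨hY, ?_⟩
  intro L hL
  have h2 : subBim Y L = ⊥ ∨ subBim Y L = ⊤ := hsub _ (subBim_isSub hL)
  rcases h2 with h | h
  · left
    rw [eq_bot_iff]
    intro y hy
    have : (Matrix.of fun _ _ => y : Matrix (Fin 2) (Fin 2) Y.carrier) ∈ subBim Y L := fun _ _ => hy
    rw [h] at this
    have h2 := (Submodule.mem_bot F).1 this
    exact congrFun (congrFun h2 0) 0
  · right
    rw [eq_top_iff]
    intro y _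
    have : (Matrix.of fun _ _ => y : Matrix (Fin 2) (Fin 2) Y.carrier) ∈ subBim Y L := by
      rw [h]; trivial
    exact this 0 0

end irr2

section iso

variable {Y : FreeMod.{u, v} F} {Y' : FreeMod.{u, w} F}

/-- entrywise application of a linear bijection -/
def matEquiv {A : Type v} {B : Type w} [AddCommGroup A] [Module F A] [AddCommGroup B] [Module F B]
    (φ : A ≃ₗ[F] B) : Matrix (Fin 2) (Fin 2) A ≃ₗ[F] Matrix (Fin 2) (Fin 2) B where
  toFun := fun m i j => φ (m i j)
  invFun := fun m i j => φ.symm (m i j)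
  map_add' := by intro m n; ext i j; exact map_add φ _ _
  map_smul' := by intro c m; ext i j; exact map_smul φ _ _
  left_inv := by intro m; ext i j; exact φ.symm_apply_apply _
  right_inv := by intro m; ext i j; exact φ.apply_symm_apply _

lemma bim_iso_of_iso (h : Y.Iso Y') : (bim Y).Iso (bim Y') := by
  obtain ⟨φ, hφ⟩ := h
  have hψ : ∀ m i j, matEquiv φ m i j = φ (m i j) := fun _ _ _ => rfl
  have h1 : ∀ (a : Mat2 F) (m : Matrix (Fin 2) (Fin 2) Y.carrier),
      matEquiv φ (lfun Y a m) = lfun Y' a (matEquiv φ m) := by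
    intro a m
    ext i j
    rw [hψ]
    fin_cases i <;> fin_cases j <;>
      simp [lfun_eq, hψ, map_add, map_smul, map_sub, fun y => (hφ y).1, fun y => (hφ y).2.1,
        fun y => (hφ y).2.2]
  have h2 : ∀ (m : Matrix (Fin 2) (Fin 2) Y.carrier) (a : Mat2 F),
      matEquiv φ (rfun Y m a) = rfun Y' (matEquiv φ m) a := by
    intro m a
    ext i j
    rw [hψ]
    fin_cases i <;> fin_cases j <;> simp [rfun_eq, hψ, map_add, map_smul]
  exact ⟨matEquiv φ, h1, h2⟩

/-- the operators on the corner which recover `x`, `z`, `s` -/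
lemma corner_ops (y : Y.carrier) :
    rfun Y (row y 0) !![1, 0; 0, 0] = row y 0 ∧ lfun Y !![1, 0; 0, 0] (row y 0) = row y 0 ∧
    rfun Y (lfun Y !![1, 0; 0, 0] (lfun Y !![0, 0; 1, 0] (row y 0))) !![1, 0; 0, 0] =
      row (Y.x y) 0 ∧
    rfun Y (lfun Y !![0, 1; 0, 0] (lfun Y !![0, 0; 1, 0] (row y 0))) !![0, 1; 0, 0] =
      row (Y.z y) 0 ∧
    rfun Y (lfun Y !![0, 1; 0, 0] (lfun Y !![0, 0; 1, 0] (row y 0))) !![1, 0; 0, 0] =
      row (y + Y.s y) (Y.z y) ∧
    rfun Y (lfun Y !![1, 0; 0, 0] (row (y + Y.s y) (Y.z y))) !![1, 0; 0, 0] =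
      row (y + Y.s y + Y.x (Y.z y)) 0 := by
  refine ⟨?_, ?_, ?_, ?_, ?_, ?_⟩
  all_goals
    ext i j
    fin_cases i <;> fin_cases j <;> simp [rfun_eq, lfun_eq, row]

lemma corner_char (m : Matrix (Fin 2) (Fin 2) Y.carrier)
    (h1 : rfun Y m !![1, 0; 0, 0] = m) (h2 : lfun Y !![1, 0; 0, 0] m = m) : m = row (m 0 0) 0 := by
  have e10 := congrFun (congrFun h1 1) 0
  have e11 := congrFun (congrFun h1 1) 1
  have e01 := congrFun (congrFun h2 0) 1
  simp [rfun_eq] at e10 e11
  simp [lfun_eq] at e01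
  ext i j
  fin_cases i <;> fin_cases j <;> simp [row, ← e10, ← e11, ← e01]

lemma iso_of_bim_iso (h : (bim Y).Iso (bim Y')) : Y.Iso Y' := by
  obtain ⟨φ, hl, hr⟩ := h
  change Matrix (Fin 2) (Fin 2) Y.carrier ≃ₗ[F] Matrix (Fin 2) (Fin 2) Y'.carrier at φ
  replace hl : ∀ (a : Mat2 F) (m : Matrix (Fin 2) (Fin 2) Y.carrier),
    φ (lfun Y a m) = lfun Y' a (φ m) := hl
  replace hr : ∀ (m : Matrix (Fin 2) (Fin 2) Y.carrier) (a : Mat2 F),
    φ (rfun Y m a) = rfun Y' (φ m) a := hr
  have hls : ∀ (a : Mat2 F) (m : Matrix (Fin 2) (Fin 2) Y'.carrier),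
      φ.symm (lfun Y' a m) = lfun Y a (φ.symm m) := by
    intro a m
    rw [LinearEquiv.symm_apply_eq, hl, LinearEquiv.apply_symm_apply]
  have hrs : ∀ (m : Matrix (Fin 2) (Fin 2) Y'.carrier) (a : Mat2 F),
      φ.symm (rfun Y' m a) = rfun Y (φ.symm m) a := by
    intro m a
    rw [LinearEquiv.symm_apply_eq, hr, LinearEquiv.apply_symm_apply]
  have c1 : ∀ y, φ (row y 0) = row (φ (row y 0) 0 0) 0 := by
    intro y
    obtain ⟨h1, h2, -⟩ := corner_ops (Y := Y) y
    apply corner_char
    · rw [← hr, h1]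
    · rw [← hl, h2]
  have c2 : ∀ y, φ.symm (row y 0) = row (φ.symm (row y 0) 0 0) 0 := by
    intro y
    obtain ⟨h1, h2, -⟩ := corner_ops (Y := Y') y
    apply corner_char
    · rw [← hrs, h1]
    · rw [← hls, h2]
  have hinj : ∀ (Y : FreeMod.{u, w} F) (a b : Y.carrier), row a 0 = row b 0 → a = b := by
    intro Y a b h
    exact congrFun (congrFun h 0) 0
  have hadd : ∀ a b : Y.carrier, row (a + b) 0 = row a 0 + row b 0 := by
    intro a b; rw [row_add, add_zero]
  have hadd' : ∀ a b : Y'.carrier, row (a + b) 0 = row a 0 + row b 0 := by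
    intro a b; rw [row_add, add_zero]
  have hsm : ∀ (c : F) (a : Y.carrier), row (c • a) 0 = c • row a 0 := by
    intro c a; rw [row_smul, smul_zero]
  let ψ : Y.carrier ≃ₗ[F] Y'.carrier :=
    { toFun := fun y => φ (row y 0) 0 0
      invFun := fun y => φ.symm (row y 0) 0 0
      map_add' := by
        intro a b
        rw [hadd, map_add]
        rfl
      map_smul' := by
        intro c a
        rw [hsm, map_smul]
        rfl
      left_inv := by
        intro y
        change φ.symm (row (φ (row y 0) 0 0) 0) 0 0 = y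
        rw [← c1, LinearEquiv.symm_apply_apply]
        rfl
      right_inv := by
        intro y
        change φ (row (φ.symm (row y 0) 0 0) 0) 0 0 = y
        rw [← c2, LinearEquiv.apply_symm_apply]
        rfl }
  have hψ : ∀ y, φ (row y 0) = row (ψ y) 0 := c1
  refine ⟨ψ, ?_⟩
  intro y
  obtain ⟨-, -, h3, h4, h5, h6⟩ := corner_ops (Y := Y) y
  obtain ⟨-, -, g3, g4, g5, g6⟩ := corner_ops (Y := Y') (ψ y)
  have hx : ψ (Y.x y) = Y'.x (ψ y) := by
    apply hinj
    rw [← hψ, ← h3, hr, hl, hl, hψ, g3]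
  have hz : ψ (Y.z y) = Y'.z (ψ y) := by
    apply hinj
    rw [← hψ, ← h4, hr, hl, hl, hψ, g4]
  have hs0 : ψ (y + Y.s y + Y.x (Y.z y)) = ψ y + Y'.s (ψ y) + Y'.x (Y'.z (ψ y)) := by
    apply hinj
    rw [← hψ, ← h6, ← h5, hr, hl, hr, hl, hl, hψ, g5, g6]
  have hxz : ψ (Y.x (Y.z y)) = Y'.x (Y'.z (ψ y)) := by
    obtain ⟨-, -, k3, -⟩ := corner_ops (Y := Y) (Y.z y)
    obtain ⟨-, -, l3, -⟩ := corner_ops (Y := Y') (ψ (Y.z y))
    rw [← hz]
    apply hinj
    rw [← hψ, ← k3, hr, hl, hl, hψ, l3]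
  refine ⟨hx, ?_, hz⟩
  rw [map_add, map_add, hxz] at hs0
  exact add_left_cancel (add_right_cancel hs0)

/-- An exceptional pair gives a proper sub-bimodule. -/
lemma reducible_of_pair {e f : Y.carrier} (h : ExcPair Y e f) (he : e ≠ 0) :
    ¬ (bim Y).IsIrreducible := by
  rintro ⟨-, hsub⟩
  obtain ⟨hxe, hxf, hse, hsf, hze, hzf⟩ := h
  let N : Submodule F (Matrix (Fin 2) (Fin 2) Y.carrier) :=
    { carrier := {m | ∃ c d : F, m = !![c • e, c • f; d • e, d • f]}
      add_mem' := by
        rintro _ _ ⟨c, d, rfl⟩ ⟨c', d', rfl⟩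
        refine ⟨c + c', d + d', ?_⟩
        ext i j
        fin_cases i <;> fin_cases j <;> simp [add_smul]
      zero_mem' := by
        refine ⟨0, 0, ?_⟩
        ext i j
        fin_cases i <;> fin_cases j <;> simp
      smul_mem' := by
        rintro r _ ⟨c, d, rfl⟩
        refine ⟨r * c, r * d, ?_⟩
        ext i j
        fin_cases i <;> fin_cases j <;> simp [mul_smul] }
  have hst : (bim Y).IsSubBimodule N := by
    rintro a _ ⟨c, d, rfl⟩
    constructor
    · refine ⟨c * a 1 1 - d * a 0 1, d * a 0 0 - c * a 1 0, ?_⟩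
      change lfun Y a _ = _
      ext i j
      fin_cases i <;> fin_cases j <;>
        simp [lfun_eq, hxe, hxf, hse, hsf, hze, hzf] <;> module
    · refine ⟨a 0 0 * c + a 0 1 * d, a 1 0 * c + a 1 1 * d, ?_⟩
      change rfun Y _ a = _
      ext i j
      fin_cases i <;> fin_cases j <;>
        simp [rfun_eq] <;> module
  have h2 : N = ⊥ ∨ N = ⊤ := hsub N hst
  rcases h2 with h | h
  · have hm : (!![e, f; 0, 0] : Matrix (Fin 2) (Fin 2) Y.carrier) ∈ N := by
      refine ⟨1, 0, ?_⟩
      ext i j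
      fin_cases i <;> fin_cases j <;> simp
    rw [h] at hm
    have h3 := (Submodule.mem_bot F).1 hm
    exact he (congrFun (congrFun h3 0) 0)
  · have hm : (!![e, 0; 0, 0] : Matrix (Fin 2) (Fin 2) Y.carrier) ∈ N := by
      rw [h]; trivial
    obtain ⟨c, d, hcd⟩ := hm
    have h0 : e = c • e := congrFun (congrFun hcd 0) 0
    have h1 : 0 = c • f := congrFun (congrFun hcd 0) 1
    have h3 := congrArg Y.x h1
    rw [map_zero, map_smul, hxf, smul_neg, ← h0] at h3
    exact he (neg_eq_zero.1 h3.symm)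

lemma exc_pair : ExcPair (FreeMod.exc F) (![1, 0] : Fin 2 → F) (![0, 1] : Fin 2 → F) := by
  refine ⟨?_, ?_, ?_, ?_, ?_, ?_⟩
  · change Matrix.toLin' !![0, -1; 0, 0] (![1, 0] : Fin 2 → F) = (0 : Fin 2 → F)
    ext i; fin_cases i <;> simp [Matrix.toLin'_apply]
  · change Matrix.toLin' !![0, -1; 0, 0] (![0, 1] : Fin 2 → F) = -(![1, 0] : Fin 2 → F)
    ext i; fin_cases i <;> simp [Matrix.toLin'_apply]
  · change Matrix.toLin' !![1, 0; 0, -1] (![1, 0] : Fin 2 → F) = (![1, 0] : Fin 2 → F)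
    ext i; fin_cases i <;> simp [Matrix.toLin'_apply]
  · change Matrix.toLin' !![1, 0; 0, -1] (![0, 1] : Fin 2 → F) = -(![0, 1] : Fin 2 → F)
    ext i; fin_cases i <;> simp [Matrix.toLin'_apply]
  · change Matrix.toLin' !![0, 0; 1, 0] (![1, 0] : Fin 2 → F) = (![0, 1] : Fin 2 → F)
    ext i; fin_cases i <;> simp [Matrix.toLin'_apply]
  · change Matrix.toLin' !![0, 0; 1, 0] (![0, 1] : Fin 2 → F) = (0 : Fin 2 → F)
    ext i; fin_cases i <;> simp [Matrix.toLin'_apply]

/-- transport of an exceptional pair along an isomorphism -/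
lemma pair_transport (h : Y.Iso Y') {p q : Y'.carrier} (hp : ExcPair Y' p q) (hne : p ≠ 0) :
    ∃ e f : Y.carrier, ExcPair Y e f ∧ e ≠ 0 := by
  obtain ⟨φ, hφ⟩ := h
  obtain ⟨h1, h2, h3, h4, h5, h6⟩ := hp
  have key : ∀ v, φ.symm (Y'.x v) = Y.x (φ.symm v) ∧
      φ.symm (Y'.s v) = Y.s (φ.symm v) ∧ φ.symm (Y'.z v) = Y.z (φ.symm v) := by
    intro v
    obtain ⟨a, b, c⟩ := hφ (φ.symm v)
    refine ⟨?_, ?_, ?_⟩
    · rw [LinearEquiv.symm_apply_eq, a, LinearEquiv.apply_symm_apply]
    · rw [LinearEquiv.symm_apply_eq, b, LinearEquiv.apply_symm_apply]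
    · rw [LinearEquiv.symm_apply_eq, c, LinearEquiv.apply_symm_apply]
  refine ⟨φ.symm p, φ.symm q, ⟨?_, ?_, ?_, ?_, ?_, ?_⟩, ?_⟩
  · rw [← (key _).1, h1, map_zero]
  · rw [← (key _).1, h2, map_neg]
  · rw [← (key _).2.1, h3]
  · rw [← (key _).2.1, h4, map_neg]
  · rw [← (key _).2.2, h5]
  · rw [← (key _).2.2, h6, map_zero]
  · intro h0
    apply hne
    rw [← map_zero φ.symm] at h0
    exact φ.symm.injective h0

lemma pair_of_iso (h : Y.Iso (FreeMod.exc F)) : ∃ e f : Y.carrier, ExcPair Y e f ∧ e ≠ 0 := by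
  have hne : (![1, 0] : Fin 2 → F) ≠ 0 := by
    intro h
    have := congrFun h 0
    simp at this
  exact pair_transport h (exc_pair (F := F)) hne

/-- **The criterion of irreducibility.** -/
theorem bim_irreducible_iff :
    (bim Y).IsIrreducible ↔ Y.IsIrreducible ∧ ¬ Y.Iso (FreeMod.exc F) := by
  constructor
  · intro h
    refine ⟨irreducible_of_bim h, ?_⟩
    intro hiso
    obtain ⟨e, f, hp, he⟩ := pair_of_iso hiso
    exact reducible_of_pair hp he h
  · rintro ⟨h1, h2⟩
    exact bim_irreducible h1 h2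

theorem bim_iso_iff : (bim Y).Iso (bim Y') ↔ Y.Iso Y' :=
  ⟨iso_of_bim_iso, bim_iso_of_iso⟩

end iso

end Pool.Agent.Y744.RA
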