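import Pool.Agent.Y744.RA.Family

/-!
Irreducible modules over the free algebra in every dimension, and the dimension of `M(Y)`.
-/

namespace Pool.Agent.Y744.RA

universe u v w

variable {F : Type u} [Field F]

/-- downward shift -/
def down (F : Type u) [Field F] (n : ℕ) : (Fin n → F) →ₗ[F] (Fin n → F) where
  toFun v i := if h : (i : ℕ) + 1 < n then v ⟨i + 1, h⟩ else 0
  map_add' v w := by ext i; by_cases h : (i : ℕ) + 1 < n <;> simp [h]
  map_smul' c v := by ext i; by_cases h : (i : ℕ) + 1 < n <;> simp [h]

/-- upward shift -/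
def upp (F : Type u) [Field F] (n : ℕ) : (Fin n → F) →ₗ[F] (Fin n → F) where
  toFun v i := if h : (i : ℕ) = 0 then 0 else v ⟨i - 1, by omega⟩
  map_add' v w := by ext i; by_cases h : (i : ℕ) = 0 <;> simp [h]
  map_smul' c v := by ext i; by_cases h : (i : ℕ) = 0 <;> simp [h]

lemma down_apply {n : ℕ} (v : Fin n → F) (i : Fin n) :
    down F n v i = if h : (i : ℕ) + 1 < n then v ⟨i + 1, h⟩ else 0 := rfl

lemma upp_apply {n : ℕ} (v : Fin n → F) (i : Fin n) :
    upp F n v i = if h : (i : ℕ) = 0 then 0 else v ⟨i - 1, by omega⟩ := rfl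

/-- downward shift plus `t` -/
def shx (F : Type u) [Field F] (n : ℕ) (t : F) : (Fin n → F) →ₗ[F] (Fin n → F) :=
  down F n + t • (LinearMap.id : (Fin n → F) →ₗ[F] (Fin n → F))

lemma shx_apply {n : ℕ} (t : F) (v : Fin n → F) : shx F n t v = down F n v + t • v := rfl

/-- The `n`-dimensional module with `x` the downward shift plus `t`, `s = 0`, and `z` the upward
shift. -/
def shiftMod (F : Type u) [Field F] (n : ℕ) (t : F) : FreeMod.{u, u} F where
  carrier := Fin n → F
  x := shx F n t
  s := 0
  z := upp F n

lemma unit_mem_aux {n : ℕ} (hn : 0 < n) (N : Submodule F (Fin n → F))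
    (hN : ∀ v ∈ N, down F n v ∈ N) :
    ∀ k : ℕ, ∀ v ∈ N, v ≠ 0 → (∀ i : Fin n, k ≤ i → v i = 0) →
      (Pi.single ⟨0, hn⟩ 1 : Fin n → F) ∈ N := by
  intro k
  induction k with
  | zero =>
    intro v _ hv h0
    exact absurd (funext fun i => h0 i (Nat.zero_le _)) hv
  | succ k ih =>
    intro v hv hv0 h0
    by_cases hk : k < n
    · by_cases hvk : v ⟨k, hk⟩ = 0
      · apply ih v hv hv0
        intro i hi
        rcases Nat.lt_or_eq_of_le hi with h | h
        · exact h0 i h
        · have : i = ⟨k, hk⟩ := Fin.ext h.symm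
          rw [this, hvk]
      · rcases Nat.eq_zero_or_pos k with hk0 | hk0
        · subst hk0
          have : (v ⟨0, hk⟩)⁻¹ • v = Pi.single ⟨0, hn⟩ 1 := by
            ext i
            by_cases hi : i = ⟨0, hn⟩
            · subst hi
              simp [hvk]
            · have : v i = 0 := by
                apply h0
                have : (i : ℕ) ≠ 0 := fun h => hi (Fin.ext h)
                omega
              simp [this, hi]
          rw [← this]
          exact N.smul_mem _ hv
        · apply ih _ (hN v hv)
          · intro h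
            apply hvk
            have := congrFun h ⟨k - 1, by omega⟩
            rw [down_apply, dif_pos (by simp; omega)] at this
            have hkk : (⟨k - 1 + 1, by omega⟩ : Fin n) = ⟨k, hk⟩ := Fin.ext (by simp; omega)
            simpa [hkk] using this
          · intro i hi
            rw [down_apply]
            split_ifs with h
            · apply h0
              simp; omega
            · rfl
    · apply ih v hv hv0
      intro i hi
      have := i.2
      omega

lemma top_of_unit {n : ℕ} (hn : 0 < n) (N : Submodule F (Fin n → F))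
    (hN : ∀ v ∈ N, upp F n v ∈ N) (h0 : (Pi.single ⟨0, hn⟩ 1 : Fin n → F) ∈ N) : N = ⊤ := by
  have key : ∀ k : ℕ, ∀ hk : k < n, (Pi.single ⟨k, hk⟩ 1 : Fin n → F) ∈ N := by
    intro k
    induction k with
    | zero => intro hk; exact h0
    | succ k ih =>
      intro hk
      have h1 := hN _ (ih (by omega))
      convert h1 using 1
      ext i
      rw [upp_apply]
      by_cases hi : (i : ℕ) = 0
      · rw [dif_pos hi]
        rw [Pi.single_apply, if_neg]
        intro h
        rw [h] at hi
        simp at hi
      · rw [dif_neg hi]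
        rw [Pi.single_apply, Pi.single_apply]
        congr 1
        rw [Fin.ext_iff, Fin.ext_iff]
        simp only [eq_iff_iff]
        omega
  rw [eq_top_iff]
  intro v _
  rw [pi_eq_sum_univ' v]
  apply N.sum_mem
  intro i _
  apply N.smul_mem
  have := key i i.2
  convert this using 1

lemma shiftMod_irreducible {n : ℕ} (hn : 0 < n) (t : F) : (shiftMod F n t).IsIrreducible := by
  have : Nonempty (Fin n) := ⟨⟨0, hn⟩⟩
  refine ⟨inferInstanceAs (Nontrivial (Fin n → F)), ?_⟩
  intro N hN
  have key : ∀ N : Submodule F (Fin n → F), (∀ v ∈ N, down F n v ∈ N) → (∀ v ∈ N, upp F n v ∈ N) →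
      N = ⊥ ∨ N = ⊤ := by
    intro N h1 h2
    by_cases h : N = ⊥
    · exact Or.inl h
    · right
      obtain ⟨v, hv, hv0⟩ := (Submodule.ne_bot_iff N).1 h
      exact top_of_unit hn N h2 (unit_mem_aux hn N h1 n v hv hv0
        (fun i hi => absurd i.2 (by omega)))
  apply key N
  · intro v hv
    have h1 := N.sub_mem (hN v hv).1 (N.smul_mem t hv)
    have h2 : shx F n t v - t • v = down F n v := by
      rw [shx_apply, add_sub_cancel_right]
    rw [← h2]
    exact h1
  · intro v hv
    exact (hN v hv).2.2

lemma shiftMod_not_exc (n : ℕ) (t : F) : ¬ (shiftMod F n t).Iso (FreeMod.exc F) := by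
  intro h
  obtain ⟨e, f, he, hne⟩ := pair_of_iso h
  have h1 : (shiftMod F n t).s e = e := he.2.2.1
  have h2 : (shiftMod F n t).s e = 0 := rfl
  exact hne (h1.symm.trans h2)

lemma eigen_aux {n : ℕ} {c : F} (hc : c ≠ 0) (w : Fin n → F) (hw : down F n w = c • w) : w = 0 := by
  have key : ∀ k : ℕ, ∀ i : Fin n, n ≤ (i : ℕ) + k → w i = 0 := by
    intro k
    induction k with
    | zero => intro i hi; exact absurd i.2 (by omega)
    | succ k ih =>
      intro i hi
      have h1 := congrFun hw i
      rw [down_apply, Pi.smul_apply, smul_eq_mul] at h1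
      split_ifs at h1 with h
      · rw [ih ⟨i + 1, h⟩ (by simp; omega)] at h1
        rcases mul_eq_zero.1 h1.symm with h2 | h2
        · exact absurd h2 hc
        · exact h2
      · rcases mul_eq_zero.1 h1.symm with h2 | h2
        · exact absurd h2 hc
        · exact h2
  ext i
  exact key n i (by omega)

lemma shiftMod_iso {n : ℕ} (hn : 0 < n) {t t' : F} (h : (shiftMod F n t).Iso (shiftMod F n t')) :
    t = t' := by
  obtain ⟨φ, hφ⟩ := h
  change (Fin n → F) ≃ₗ[F] (Fin n → F) at φ
  by_contra hne
  let e : Fin n → F := Pi.single ⟨0, hn⟩ 1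
  have he : e ≠ 0 := by
    intro h
    have := congrFun h ⟨0, hn⟩
    simp [e] at this
  have hx : shx F n t e = t • e := by
    rw [shx_apply]
    have : down F n e = 0 := by
      ext i
      rw [down_apply]
      split_ifs with h
      · simp [e]
      · rfl
    simp [this]
  have h1 : φ (shx F n t e) = shx F n t' (φ e) := (hφ e).1
  have h3 : shx F n t' (φ e) = down F n (φ e) + t' • φ e := rfl
  have h4 : φ (t • e) = t • φ e := map_smul φ t e
  have h5 : down F n (φ e) = (t - t') • φ e := by
    have h6 : t • φ e = down F n (φ e) + t' • φ e := by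
      rw [← h4, ← h3, ← h1, hx]
    rw [sub_smul, h6, add_sub_cancel_right]
  have h7 := eigen_aux (sub_ne_zero.2 hne) _ h5
  apply he
  have : φ e = φ 0 := by rw [h7, map_zero]
  exact φ.injective this

lemma bim_finrank (Y : FreeMod.{u, v} F) :
    Module.finrank F (bim Y).carrier = 4 * Module.finrank F Y.carrier := by
  change Module.finrank F (Matrix (Fin 2) (Fin 2) Y.carrier) = _
  rw [Module.finrank_matrix]
  simp

lemma bim_finite (Y : FreeMod.{u, v} F) [FiniteDimensional F Y.carrier] :
    FiniteDimensional F (bim Y).carrier :=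
  inferInstanceAs (FiniteDimensional F (Matrix (Fin 2) (Fin 2) Y.carrier))

/-- In every dimension `4 n` there are at least as many irreducible right alternative bimodules as
elements of `F`. -/
theorem all_dimensions (n : ℕ) (hn : 0 < n) :
    ∃ f : F → Bimodule.{u, u} F,
      (∀ t, (f t).IsRightAlternative ∧ (f t).IsUnital ∧ (f t).IsIrreducible ∧
        FiniteDimensional F (f t).carrier ∧ Module.finrank F (f t).carrier = 4 * n) ∧
      ∀ t t', (f t).Iso (f t') → t = t' := by
  refine ⟨fun t => bim (shiftMod F n t), ?_, ?_⟩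
  · intro t
    have : FiniteDimensional F (shiftMod F n t).carrier :=
      inferInstanceAs (FiniteDimensional F (Fin n → F))
    refine ⟨bim_rightAlt _, bim_unital _,
      bim_irreducible_iff.2 ⟨shiftMod_irreducible hn t, shiftMod_not_exc n t⟩, bim_finite _, ?_⟩
    rw [bim_finrank]
    change 4 * Module.finrank F (Fin n → F) = _
    simp
  · intro t t' h
    exact shiftMod_iso hn (bim_iso_iff.1 h)

end Pool.Agent.Y744.RA
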